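import Mathlib

/-!
# Renorming a Banach space by a bounded norming family of functionals
-/

namespace Pool.Agent.R270.Renorm

open Set
open scoped ENNReal

variable {𝕜 Y ι : Type*} [RCLike 𝕜] [NormedAddCommGroup Y] [NormedSpace 𝕜 Y]

/-- The map `y ↦ (φ i y)_i` into `ℓ∞(ι)`. -/
noncomputable def J (φ : ι → StrongDual 𝕜 Y) (C : ℝ) (hC : ∀ i y, ‖φ i y‖ ≤ C * ‖y‖)
    (hC0 : 0 ≤ C) : Y →L[𝕜] lp (fun _ : ι => 𝕜) ∞ :=
  LinearMap.mkContinuous
    { toFun := fun y => ⟨fun i => φ i y, memℓp_infty ⟨C * ‖y‖, by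
        rintro _ ⟨i, rfl⟩; exact hC i y⟩⟩
      map_add' := fun y z => by ext i; exact (φ i).map_add y z
      map_smul' := fun c y => by ext i; exact (φ i).map_smul c y } C
    (fun y => lp.norm_le_of_forall_le (by positivity) fun i => hC i y)

variable (φ : ι → StrongDual 𝕜 Y) (C : ℝ) (hC : ∀ i y, ‖φ i y‖ ≤ C * ‖y‖) (hC0 : 0 ≤ C)

@[simp] lemma J_apply (y : Y) (i : ι) : J φ C hC hC0 y i = φ i y := rfl

lemma norm_J_le {M : ℝ} (hM : 0 ≤ M) {y : Y} (h : ∀ i, ‖φ i y‖ ≤ M) : ‖J φ C hC hC0 y‖ ≤ M :=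
  lp.norm_le_of_forall_le hM h

lemma le_norm_J (y : Y) (i : ι) : ‖φ i y‖ ≤ ‖J φ C hC hC0 y‖ :=
  lp.norm_apply_le_norm ENNReal.top_ne_zero (J φ C hC hC0 y) i

/-- The range of `J` is complete if the family is norming. -/
lemma completeSpace_range [CompleteSpace Y]
    (hnorm : ∀ (y : Y) (M : ℝ), 0 ≤ M → (∀ i, ‖φ i y‖ ≤ M) → ‖y‖ ≤ M) :
    CompleteSpace (LinearMap.range (J φ C hC hC0).toLinearMap) := by
  have hanti : AntilipschitzWith 1 (J φ C hC hC0) := by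
    refine AddMonoidHomClass.antilipschitz_of_bound _ fun y => ?_
    simp only [NNReal.coe_one, one_mul]
    exact hnorm y _ (norm_nonneg _) fun i => le_norm_J φ C hC hC0 y i
  have hcl : IsClosed (range (J φ C hC hC0)) :=
    hanti.isClosed_range (J φ C hC hC0).uniformContinuous
  exact hcl.completeSpace_coe

end Pool.Agent.R270.Renorm
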