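import Mathlib

/-!
# Slices of the unit ball
-/

namespace Pool.Agent.R270.Slices

open Set

variable {𝕜 X : Type*} [RCLike 𝕜] [NormedAddCommGroup X] [NormedSpace 𝕜 X]

/-- If `{u ∈ B_X : r < Re f(u)}` is nonempty and `X` is nontrivial then it is a slice defined by
a functional of norm one. -/
lemma exists_slice_rep (f : StrongDual 𝕜 X) (r : ℝ) (u₀ : X) (hu₀ : ‖u₀‖ ≤ 1)
    (h : r < RCLike.re (f u₀)) (x : X) (hx : ‖x‖ = 1) :
    ∃ (g : StrongDual 𝕜 X) (α : ℝ), ‖g‖ = 1 ∧ 0 < α ∧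
      {u : X | ‖u‖ ≤ 1 ∧ r < RCLike.re (f u)} = {u : X | ‖u‖ ≤ 1 ∧ 1 - α < RCLike.re (g u)} := by
  by_cases hf : f = 0
  · subst hf
    obtain ⟨g, hg, -⟩ := exists_dual_vector 𝕜 x (by intro h0; simp [h0] at hx)
    refine ⟨g, 3, hg, by norm_num, ?_⟩
    simp only [zero_apply, map_zero] at h
    ext u
    simp only [mem_ofPred_eq, zero_apply, map_zero, h, and_true]
    constructor
    · intro hu
      refine ⟨hu, ?_⟩
      have h1 : |RCLike.re (g u)| ≤ 1 := by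
        calc |RCLike.re (g u)| ≤ ‖g u‖ := RCLike.abs_re_le_norm _
          _ ≤ ‖g‖ * ‖u‖ := g.le_opNorm u
          _ ≤ 1 := by rw [hg, one_mul]; exact hu
      have := (abs_le.1 h1).1
      linarith
    · exact fun hu => hu.1
  · have hpos : 0 < ‖f‖ := norm_pos_iff.2 hf
    refine ⟨((‖f‖⁻¹ : ℝ) : 𝕜) • f, 1 - r / ‖f‖, ?_, ?_, ?_⟩
    · rw [norm_smul, RCLike.norm_ofReal, abs_of_pos (inv_pos.2 hpos)]
      exact inv_mul_cancel₀ hpos.ne'
    · have h1 : RCLike.re (f u₀) ≤ ‖f‖ := by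
        calc RCLike.re (f u₀) ≤ ‖f u₀‖ := RCLike.re_le_norm _
          _ ≤ ‖f‖ * ‖u₀‖ := f.le_opNorm u₀
          _ ≤ ‖f‖ * 1 := by gcongr
          _ = ‖f‖ := mul_one _
      have : r / ‖f‖ < 1 := by
        rw [div_lt_one hpos]; linarith
      linarith
    · ext u
      simp only [mem_ofPred_eq, smul_apply, smul_eq_mul]
      rw [RCLike.re_ofReal_mul, sub_sub_cancel, div_eq_inv_mul]
      have : (‖f‖⁻¹ * r < ‖f‖⁻¹ * RCLike.re (f u)) ↔ r < RCLike.re (f u) :=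
        mul_lt_mul_iff_right₀ (inv_pos.2 hpos)
      rw [this]

end Pool.Agent.R270.Slices
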