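import Mathlib

set_option autoImplicit false

open Set Filter Topology

namespace Pool.Agent.R270.UL

variable {X : Type*} [NormedAddCommGroup X] [NormedSpace ℝ X]

/-- An element of the bidual which lies in the weak* closure of `C` and is not in `X`, obtained from
an ultrafilter without weak limit. -/
theorem exists_bidual {C : Set X} (hb : Bornology.IsBounded C) (hc : IsClosed C)
    (hconv : Convex ℝ C) (hnw : ¬ IsCompact (toWeakSpace ℝ X '' C)) :
    ∃ Λ : StrongDual ℝ (StrongDual ℝ X),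
      (∀ x : X, NormedSpace.inclusionInDoubleDual ℝ X x ≠ Λ) ∧
      ∀ (G : Finset (StrongDual ℝ X)) (ε : ℝ), 0 < ε → ∃ x ∈ C, ∀ φ ∈ G, |φ x - Λ φ| < ε := by
  rw [isCompact_iff_ultrafilter_le_nhds] at hnw
  push Not at hnw
  obtain ⟨F, hF, hno⟩ := hnw
  obtain ⟨R, hR0, hR⟩ : ∃ R : ℝ, 0 ≤ R ∧ ∀ x ∈ C, ‖x‖ ≤ R := by
    obtain ⟨R, hR⟩ := hb.exists_norm_le
    exact ⟨max R 0, le_max_right _ _, fun x hx => (hR x hx).trans (le_max_left _ _)⟩
  have hCF : ∀ᶠ z in (F : Filter (WeakSpace ℝ X)), (toWeakSpace ℝ X).symm z ∈ C := by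
    filter_upwards [le_principal_iff.1 hF] with z hz
    obtain ⟨x, hx, rfl⟩ := hz
    simpa using hx
  have hlim : ∀ φ : StrongDual ℝ X, ∃ a : ℝ, |a| ≤ R * ‖φ‖ ∧
      Tendsto (fun z : WeakSpace ℝ X => φ ((toWeakSpace ℝ X).symm z)) F (𝓝 a) := by
    intro φ
    have h1 : IsCompact (Metric.closedBall (0 : ℝ) (R * ‖φ‖)) := isCompact_closedBall _ _
    have h2 := isCompact_iff_ultrafilter_le_nhds.1 h1
      (F.map (fun z : WeakSpace ℝ X => φ ((toWeakSpace ℝ X).symm z))) (by
        rw [Ultrafilter.coe_map, le_principal_iff, mem_map]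
        filter_upwards [hCF] with z hz
        rw [mem_preimage, mem_closedBall_zero_iff, mul_comm]
        exact (φ.le_opNorm _).trans (mul_le_mul_of_nonneg_left (hR _ hz) (norm_nonneg _)))
    obtain ⟨a, ha, hla⟩ := h2
    exact ⟨a, by simpa using ha, hla⟩
  choose L hLb hL using hlim
  have hadd : ∀ φ ψ : StrongDual ℝ X, L (φ + ψ) = L φ + L ψ := fun φ ψ =>
    tendsto_nhds_unique (hL (φ + ψ)) ((hL φ).add (hL ψ))
  have hsmul : ∀ (c : ℝ) (φ : StrongDual ℝ X), L (c • φ) = c • L φ := fun c φ =>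
    tendsto_nhds_unique (hL (c • φ)) ((hL φ).const_smul c)
  let Λ : StrongDual ℝ (StrongDual ℝ X) := LinearMap.mkContinuous
    { toFun := L, map_add' := hadd, map_smul' := hsmul } R hLb
  refine ⟨Λ, ?_, ?_⟩
  · intro x hx
    have hx' : ∀ φ : StrongDual ℝ X, L φ = φ x := fun φ => by
      have := congrArg (fun l : StrongDual ℝ (StrongDual ℝ X) => l φ) hx
      exact this.symm
    have hxC : x ∈ C := by
      by_contra hcon
      obtain ⟨f, u, hu1, hu2⟩ := geometric_hahn_banach_closed_point hconv hc hcon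
      have h3 : L f ≤ u := le_of_tendsto (hL f) (by
        filter_upwards [hCF] with z hz
        exact (hu1 _ hz).le)
      rw [hx' f] at h3
      linarith
    refine hno (toWeakSpace ℝ X x) ⟨x, hxC, rfl⟩ ?_
    have h4 : Tendsto (fun z : WeakSpace ℝ X => z) (F : Filter (WeakSpace ℝ X))
        (𝓝 (toWeakSpace ℝ X x)) := by
      have hinj : Function.Injective (topDualPairing ℝ X).flip := by
        intro a b hab
        by_contra hne
        obtain ⟨f, hf⟩ := SeparatingDual.exists_separating_of_ne (R := ℝ) hne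
        exact hf (by
          have := congrArg (fun l : StrongDual ℝ X →ₗ[ℝ] ℝ => l f) hab
          exact this)
      refine (WeakBilin.tendsto_iff_forall_eval_tendsto (B := (topDualPairing ℝ X).flip) hinj).2 ?_
      intro φ
      have h5 := hL φ
      rw [hx' φ] at h5
      exact h5
    exact h4
  · intro G ε hε
    have h1 : ∀ᶠ z in (F : Filter (WeakSpace ℝ X)), ∀ φ ∈ G,
        |φ ((toWeakSpace ℝ X).symm z) - Λ φ| < ε := by
      rw [Filter.eventually_all_finset]
      intro φ _
      have := (hL φ).eventually (Metric.ball_mem_nhds (L φ) hε)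
      filter_upwards [this] with z hz
      exact hz
    obtain ⟨z, hz1, hz2⟩ := (h1.and hCF).exists
    exact ⟨_, hz2, hz1⟩

end Pool.Agent.R270.UL
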