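import Mathlib

set_option autoImplicit false

open Set Filter Topology

namespace Pool.Agent.R270.UL

variable {X Z : Type*} [NormedAddCommGroup X] [NormedSpace ℝ X] [NormedAddCommGroup Z]
  [NormedSpace ℝ Z]

/-- A finite-dimensional subspace is almost normed by finitely many members of a norming set. -/
theorem exists_finite_norming (S : Set (Z →L[ℝ] ℝ)) (hS1 : ∀ z : Z, ∀ a < ‖z‖, ∃ φ ∈ S, a < |φ z|)
    (E : Submodule ℝ Z) [FiniteDimensional ℝ E] {η : ℝ} (hη : 0 < η) :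
    ∃ G : Set (Z →L[ℝ] ℝ), G.Finite ∧ G ⊆ S ∧
      ∀ e ∈ E, e ≠ 0 → ∃ φ ∈ G, (1 - η) * ‖e‖ ≤ |φ e| := by
  classical
  have hS : IsCompact (Metric.sphere (0 : E) 1) := isCompact_sphere _ _
  let U : S → Set E := fun φ => {e : E | 1 - η < |φ.1 (e : Z)|}
  have hUo : ∀ x, IsOpen (U x) := by
    intro φ
    exact isOpen_lt continuous_const ((φ.1.continuous.comp continuous_subtype_val).abs)
  have hcov : Metric.sphere (0 : E) 1 ⊆ ⋃ x, U x := by
    intro e he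
    have hn : ‖(e : Z)‖ = 1 := by simpa using he
    obtain ⟨φ, hφ, hx⟩ := hS1 (e : Z) (1 - η) (by rw [hn]; linarith)
    exact mem_iUnion.2 ⟨⟨φ, hφ⟩, hx⟩
  obtain ⟨t, ht⟩ := hS.elim_finite_subcover U hUo hcov
  refine ⟨Subtype.val '' (t : Set S), t.finite_toSet.image _, ?_, ?_⟩
  · rintro _ ⟨y, -, rfl⟩
    exact y.2
  · intro e he hne
    have hn : 0 < ‖e‖ := norm_pos_iff.2 hne
    let e' : E := ‖e‖⁻¹ • ⟨e, he⟩
    have he' : e' ∈ Metric.sphere (0 : E) 1 := by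
      rw [mem_sphere_zero_iff_norm]
      show ‖‖e‖⁻¹ • e‖ = 1
      rw [norm_smul, norm_inv, norm_norm]
      exact inv_mul_cancel₀ hn.ne'
    obtain ⟨φ, hxt, hx⟩ := mem_iUnion₂.1 (ht he')
    refine ⟨φ.1, ⟨φ, hxt, rfl⟩, ?_⟩
    have h2 : 1 - η < |φ.1 (‖e‖⁻¹ • e)| := hx
    rw [map_smul, smul_eq_mul, abs_mul, abs_inv, abs_norm, inv_mul_eq_div, lt_div_iff₀ hn] at h2
    exact h2.le

/-- distance of `Λ` from `X` -/
theorem exists_dist [CompleteSpace X] (J : X →ₗᵢ[ℝ] Z) {Λ : Z} (h : ∀ x : X, J x ≠ Λ) :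
    ∃ δ : ℝ, 0 < δ ∧ ∀ (x : X) (t : ℝ), |t| * δ ≤ ‖J x + t • Λ‖ := by
  have hcl : IsClosed (range J) := J.isometry.isClosedEmbedding.isClosed_range
  have hΛ : Λ ∉ range J := by
    rintro ⟨x, hx⟩
    exact h x hx
  have hne : (range J).Nonempty := ⟨J 0, mem_range_self 0⟩
  have hpos : 0 < Metric.infDist Λ (range J) :=
    (hcl.notMem_iff_infDist_pos hne).1 hΛ
  refine ⟨Metric.infDist Λ (range J), hpos, fun x t => ?_⟩
  by_cases ht : t = 0
  · subst ht; simp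
  · have h1 : Metric.infDist Λ (range J) ≤ ‖Λ - J (-(t⁻¹ • x))‖ := by
      rw [← dist_eq_norm]
      exact Metric.infDist_le_dist_of_mem (mem_range_self _)
    have h2 : J x + t • Λ = t • (Λ - J (-(t⁻¹ • x))) := by
      rw [map_neg, map_smul, sub_neg_eq_add, smul_add, smul_smul, mul_inv_cancel₀ ht, one_smul,
        add_comm]
    rw [h2, norm_smul, Real.norm_eq_abs]
    exact mul_le_mul_of_nonneg_left h1 (abs_nonneg t)

/-- Abstract data: an isometric embedding `J` of `X` into `Z`, a norming set `S` of functionals on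
`Z` of norm at most one, and a point `Λ` of `Z` which is not in the range of `J` and which is
approximated by points of `J '' C` on all finite subsets of `S`. -/
structure Sep (C : Set X) (J : X →ₗᵢ[ℝ] Z) (Λ : Z) (S : Set (Z →L[ℝ] ℝ)) : Prop where
  notMem : ∀ x : X, J x ≠ Λ
  norming : ∀ z : Z, ∀ a < ‖z‖, ∃ φ ∈ S, a < |φ z|
  le_one : ∀ φ ∈ S, ∀ z : Z, |φ z| ≤ ‖z‖
  approx : ∀ (G : Set (Z →L[ℝ] ℝ)), G.Finite → G ⊆ S → ∀ ε : ℝ, 0 < ε →
    ∃ x ∈ C, ∀ φ ∈ G, |φ (J x) - φ Λ| < ε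

/-- Selection of the next vector. -/
theorem select {C : Set X} {J : X →ₗᵢ[ℝ] Z} {Λ : Z} {S : Set (Z →L[ℝ] ℝ)}
    (h : Sep C J Λ S) {δ : ℝ} (hδ : 0 < δ)
    (hd : ∀ (x : X) (t : ℝ), |t| * δ ≤ ‖J x + t • Λ‖)
    (E : Submodule ℝ Z) [FiniteDimensional ℝ E]
    {η : ℝ} (hη : 0 < η) :
    ∃ x ∈ C, ∀ e ∈ E, ∀ c : ℝ, (1 - η) * ‖e‖ ≤ ‖e + c • (J x - Λ)‖ := by
  obtain ⟨G, hG1, hG2, hG3⟩ := exists_finite_norming S h.norming E (half_pos hη)
  obtain ⟨x, hxC, hx⟩ := h.approx G hG1 hG2 (η * δ / 4) (by positivity)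
  refine ⟨x, hxC, fun e he c => ?_⟩
  set y := J x - Λ with hy
  have hyn : δ ≤ ‖y‖ := by
    have := hd x (-1)
    rw [abs_neg, abs_one, one_mul] at this
    rw [hy, sub_eq_add_neg]
    simpa using this
  by_cases he0 : e = 0
  · subst he0; simp
  by_cases hc : 2 * ‖e‖ ≤ |c| * δ
  · have h1 : |c| * ‖y‖ - ‖e‖ ≤ ‖e + c • y‖ := by
      have := norm_sub_norm_le (c • y) (-e)
      rw [norm_neg, norm_smul, Real.norm_eq_abs, sub_neg_eq_add, add_comm (c • y)] at this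
      exact this
    have h2 : |c| * δ ≤ |c| * ‖y‖ := mul_le_mul_of_nonneg_left hyn (abs_nonneg c)
    have h3 : (1 - η) * ‖e‖ ≤ ‖e‖ := by
      have := norm_nonneg e
      nlinarith
    linarith
  · push Not at hc
    obtain ⟨φ, hφG, hφ⟩ := hG3 e he he0
    have h1 : |φ (e + c • y)| ≤ ‖e + c • y‖ := h.le_one φ (hG2 hφG) _
    have h2 : φ (e + c • y) = φ e + c * (φ (J x) - φ Λ) := by
      simp [hy]
    have h3 : |φ e| - |c| * |φ (J x) - φ Λ| ≤ |φ (e + c • y)| := by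
      rw [h2, ← abs_mul]
      have := abs_sub_abs_le_abs_sub (φ e) (-(c * (φ (J x) - φ Λ)))
      rw [abs_neg, sub_neg_eq_add] at this
      exact this
    have h4 : |c| * |φ (J x) - φ Λ| ≤ η / 2 * ‖e‖ := by
      have h5 := (hx φ hφG).le
      calc |c| * |φ (J x) - φ Λ| ≤ |c| * (η * δ / 4) := mul_le_mul_of_nonneg_left h5 (abs_nonneg c)
        _ = (|c| * δ) * (η / 4) := by ring
        _ ≤ (2 * ‖e‖) * (η / 4) := mul_le_mul_of_nonneg_right hc.le (by positivity)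
        _ = η / 2 * ‖e‖ := by ring
    linarith

end Pool.Agent.R270.UL
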