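import Pool.Agent.R270.UL1
import Pool.Agent.R270.UL2

set_option autoImplicit false

open Set Filter Topology

namespace Pool.Agent.R270.UL

variable {X Z : Type*} [NormedAddCommGroup X] [NormedSpace ℝ X] [NormedAddCommGroup Z]
  [NormedSpace ℝ Z]

/-- The sequence. -/
theorem exists_seq {C : Set X} {J : X →ₗᵢ[ℝ] Z} {Λ : Z} {S : Set (Z →L[ℝ] ℝ)}
    (h : Sep C J Λ S) {δ : ℝ} (hδ : 0 < δ)
    (hd : ∀ (x : X) (t : ℝ), |t| * δ ≤ ‖J x + t • Λ‖) :
    ∃ x : ℕ → X, (∀ n, x n ∈ C) ∧ ∀ n, ∀ e ∈ Submodule.span ℝ (insert Λ ((fun k => J (x k)) '' Iio n)),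
      ∀ c : ℝ, (1 - 1 / ((n : ℝ) + 2) ^ 2) * ‖e‖ ≤ ‖e + c • (J (x n) - Λ)‖ := by
  classical
  have hstep : ∀ l : List X, ∃ x ∈ C, ∀ e ∈ Submodule.span ℝ (insert Λ (J '' {x | x ∈ l})),
      ∀ c : ℝ, (1 - 1 / ((l.length : ℝ) + 2) ^ 2) * ‖e‖ ≤ ‖e + c • (J x - Λ)‖ := by
    intro l
    have hfin : (insert Λ (J '' {x | x ∈ l})).Finite := by
      refine Set.Finite.insert _ (Set.Finite.image _ ?_)
      exact l.finite_toSet
    have : FiniteDimensional ℝ (Submodule.span ℝ (insert Λ (J '' {x | x ∈ l}))) :=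
      FiniteDimensional.span_of_finite ℝ hfin
    exact select h hδ hd _ (by positivity)
  choose nx hnC hnx using hstep
  let s : ℕ → List X := fun n => Nat.rec [] (fun _ l => nx l :: l) n
  have hs0 : s 0 = [] := rfl
  have hs1 : ∀ n, s (n + 1) = nx (s n) :: s n := fun n => rfl
  have hlen : ∀ n, (s n).length = n := by
    intro n
    induction n with
    | zero => rfl
    | succ n ih => rw [hs1, List.length_cons, ih]
  have hmem : ∀ n k, k < n → nx (s k) ∈ s n := by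
    intro n
    induction n with
    | zero => intro k hk; omega
    | succ n ih =>
      intro k hk
      rw [hs1]
      rcases Nat.lt_succ_iff_lt_or_eq.1 hk with h1 | h1
      · exact List.mem_cons_of_mem _ (ih k h1)
      · subst h1; exact List.mem_cons_self
  refine ⟨fun n => nx (s n), fun n => hnC _, fun n e he c => ?_⟩
  have := hnx (s n) e (Submodule.span_mono ?_ he) c
  · rw [hlen] at this
    exact this
  · refine insert_subset_insert ?_
    rintro _ ⟨k, hk, rfl⟩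
    exact ⟨_, hmem n k hk, rfl⟩

/-- Estimates for the differences. -/
theorem estimates {C : Set X} {J : X →ₗᵢ[ℝ] Z} {Λ : Z}
    {δ : ℝ} (hδ : 0 < δ) (hd : ∀ (x : X) (t : ℝ), |t| * δ ≤ ‖J x + t • Λ‖)
    {Y : ℝ} (hY : ∀ x ∈ C, ‖J x - Λ‖ ≤ Y) (x : ℕ → X) (hxC : ∀ n, x n ∈ C)
    (hx : ∀ n, ∀ e ∈ Submodule.span ℝ (insert Λ ((fun k => J (x k)) '' Iio n)),
      ∀ c : ℝ, (1 - 1 / ((n : ℝ) + 2) ^ 2) * ‖e‖ ≤ ‖e + c • (J (x n) - Λ)‖)
    (G : ℕ → ℝ) (N : ℕ) (hG : ∀ k, N ≤ k → G k = 0) (j : ℕ) (hj : j ≤ N) :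
    |G j| ≤ 2 / δ * ‖∑ k ∈ Finset.range N, G k • (x (k + 1) - x k)‖ ∧
    ‖∑ k ∈ Finset.range j, G k • (x (k + 1) - x k)‖ ≤
      (2 + 2 / δ * Y) * ‖∑ k ∈ Finset.range N, G k • (x (k + 1) - x k)‖ := by
  set T : ℕ → X := fun j => ∑ k ∈ Finset.range j, G k • (x (k + 1) - x k) with hT
  let y : ℕ → Z := fun j => J (x j) - Λ
  let e : ℕ → Z := fun j => J (T j) - G j • y j
  have hrec : ∀ j, e (j + 1) = e j + (G j - G (j + 1)) • y (j + 1) := by
    intro j
    simp only [e, y, hT, Finset.sum_range_succ, map_add, map_smul, map_sub]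
    module
  have hspan : ∀ j, e j ∈ Submodule.span ℝ (insert Λ ((fun k => J (x k)) '' Iio (j + 1))) := by
    intro j
    have hΛ : Λ ∈ Submodule.span ℝ (insert Λ ((fun k => J (x k)) '' Iio (j + 1))) :=
      Submodule.subset_span (mem_insert _ _)
    have hk : ∀ k, k ≤ j → J (x k) ∈
        Submodule.span ℝ (insert Λ ((fun k => J (x k)) '' Iio (j + 1))) := fun k hk =>
      Submodule.subset_span (mem_insert_of_mem _ ⟨k, by simpa using Nat.lt_succ_of_le hk, rfl⟩)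
    refine Submodule.sub_mem _ ?_ (Submodule.smul_mem _ _ (Submodule.sub_mem _ (hk j le_rfl) hΛ))
    simp only [hT, map_sum, map_smul, map_sub]
    refine Submodule.sum_mem _ fun k hk' => Submodule.smul_mem _ _ ?_
    have := Finset.mem_range.1 hk'
    exact Submodule.sub_mem _ (hk _ this) (hk _ this.le)
  have hW : ∀ j m : ℕ, j ≤ m → ((j : ℝ) + 2) / (j + 3) * ‖e j‖ ≤ ((m : ℝ) + 2) / (m + 3) * ‖e m‖ := by
    intro j m hjm
    induction m, hjm using Nat.le_induction with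
    | base => exact le_rfl
    | succ m hm ih =>
      refine ih.trans ?_
      have h1 := hx (m + 1) (e m) (hspan m) (G m - G (m + 1))
      rw [show e m + (G m - G (m + 1)) • (J (x (m + 1)) - Λ) = e (m + 1) from (hrec m).symm] at h1
      push_cast at h1 ⊢
      have h2 : ((m : ℝ) + 2) / (m + 3) * ‖e m‖ =
          ((m : ℝ) + 1 + 2) / (m + 1 + 3) * ((1 - 1 / ((m : ℝ) + 1 + 2) ^ 2) * ‖e m‖) := by
        have a1 : (m : ℝ) + 3 ≠ 0 := by positivity
        have a2 : (m : ℝ) + 1 + 3 ≠ 0 := by positivity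
        have a3 : (m : ℝ) + 1 + 2 ≠ 0 := by positivity
        field_simp
        ring
      rw [h2]
      exact mul_le_mul_of_nonneg_left h1 (by positivity)
  have heN : e N = J (T N) := by
    simp only [e, hG N le_rfl, zero_smul, sub_zero]
  have hmain : ‖e j‖ ≤ 2 * ‖T N‖ := by
    have h1 := hW j N hj
    rw [heN, J.norm_map] at h1
    have h2 : ((N : ℝ) + 2) / (N + 3) * ‖T N‖ ≤ 1 * ‖T N‖ := by
      refine mul_le_mul_of_nonneg_right ?_ (norm_nonneg _)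
      rw [div_le_one (by positivity)]
      linarith
    have h3 : (1 / 2 : ℝ) * ‖e j‖ ≤ ((j : ℝ) + 2) / (j + 3) * ‖e j‖ := by
      refine mul_le_mul_of_nonneg_right ?_ (norm_nonneg _)
      rw [div_le_div_iff₀ (by norm_num) (by positivity)]
      have : (0 : ℝ) ≤ j := Nat.cast_nonneg j
      linarith
    linarith
  have hGj : |G j| * δ ≤ ‖e j‖ := by
    have h1 := hd (T j - G j • x j) (G j)
    have h2 : J (T j - G j • x j) + G j • Λ = e j := by
      simp only [e, y, map_sub, map_smul]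
      module
    rwa [h2] at h1
  have hGj2 : |G j| ≤ 2 / δ * ‖T N‖ := by
    rw [div_mul_eq_mul_div, le_div_iff₀ hδ]
    exact hGj.trans hmain
  refine ⟨hGj2, ?_⟩
  have h4 : J (T j) = e j + G j • y j := by simp only [e]; abel
  calc ‖T j‖ = ‖e j + G j • y j‖ := by rw [← h4, J.norm_map]
    _ ≤ ‖e j‖ + |G j| * ‖y j‖ := by
        refine (norm_add_le _ _).trans ?_
        rw [norm_smul, Real.norm_eq_abs]
    _ ≤ 2 * ‖T N‖ + (2 / δ * ‖T N‖) * Y := by
        refine add_le_add hmain ?_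
        exact mul_le_mul hGj2 (hY _ (hxC j)) (norm_nonneg _) ((abs_nonneg _).trans hGj2)
    _ = (2 + 2 / δ * Y) * ‖T N‖ := by ring

theorem basic_differences_of_sep [CompleteSpace X] {C : Set X} (hb : Bornology.IsBounded C)
    {J : X →ₗᵢ[ℝ] Z} {Λ : Z} {S : Set (Z →L[ℝ] ℝ)} (hsep : Sep C J Λ S) :
    ∃ (x : ℕ → X) (L κ : ℝ), 0 ≤ L ∧ 0 ≤ κ ∧ (∀ n, x n ∈ C) ∧
      ∀ (G : ℕ → ℝ) (N j : ℕ), j ≤ N →
        (j < N → |G j| ≤ κ * ‖∑ k ∈ Finset.range N, G k • (x (k + 1) - x k)‖) ∧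
        ‖∑ k ∈ Finset.range j, G k • (x (k + 1) - x k)‖ ≤
          L * ‖∑ k ∈ Finset.range N, G k • (x (k + 1) - x k)‖ := by
  obtain ⟨δ, hδ, hd⟩ := exists_dist J hsep.notMem
  obtain ⟨x, hxC, hx⟩ := exists_seq hsep hδ hd
  obtain ⟨R, hR⟩ := hb.exists_norm_le
  have hY : ∀ x ∈ C, ‖J x - Λ‖ ≤ R + ‖Λ‖ := fun x hx => by
    refine (norm_sub_le _ _).trans ?_
    rw [J.norm_map]
    exact add_le_add_left (hR x hx) _
  have hY0 : 0 ≤ R + ‖Λ‖ := (norm_nonneg _).trans (hY _ (hxC 0))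
  refine ⟨x, 2 + 2 / δ * (R + ‖Λ‖), 2 / δ, by positivity, by positivity, hxC, fun G N j hj => ?_⟩
  let G' : ℕ → ℝ := fun k => if k < N then G k else 0
  have hG' : ∀ k, N ≤ k → G' k = 0 := fun k hk => by simp [G', not_lt.2 hk]
  have key := estimates hδ hd hY x hxC hx G' N hG' j hj
  have hsum : ∀ m, m ≤ N → ∑ k ∈ Finset.range m, G' k • (x (k + 1) - x k) =
      ∑ k ∈ Finset.range m, G k • (x (k + 1) - x k) := by
    intro m hm
    refine Finset.sum_congr rfl fun k hk => ?_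
    have : k < N := (Finset.mem_range.1 hk).trans_le hm
    simp [G', this]
  rw [hsum N le_rfl, hsum j hj] at key
  refine ⟨fun hjN => ?_, key.2⟩
  have : G' j = G j := by simp [G', hjN]
  rw [← this]
  exact key.1

/-- Main lemma: a bounded closed convex set which is not weakly compact contains a sequence whose
sequence of differences is basic and bounded away from zero. -/
theorem exists_basic_differences [CompleteSpace X] {C : Set X} (hb : Bornology.IsBounded C)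
    (hc : IsClosed C) (hconv : Convex ℝ C) (hnw : ¬ IsCompact (toWeakSpace ℝ X '' C)) :
    ∃ (x : ℕ → X) (L κ : ℝ), 0 ≤ L ∧ 0 ≤ κ ∧ (∀ n, x n ∈ C) ∧
      ∀ (G : ℕ → ℝ) (N j : ℕ), j ≤ N →
        (j < N → |G j| ≤ κ * ‖∑ k ∈ Finset.range N, G k • (x (k + 1) - x k)‖) ∧
        ‖∑ k ∈ Finset.range j, G k • (x (k + 1) - x k)‖ ≤
          L * ‖∑ k ∈ Finset.range N, G k • (x (k + 1) - x k)‖ := by
  obtain ⟨Λ, hΛ1, hΛ2⟩ := exists_bidual hb hc hconv hnw
  let J := NormedSpace.inclusionInDoubleDualLi (E := X) ℝ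
  let ev : StrongDual ℝ X → (StrongDual ℝ (StrongDual ℝ X) →L[ℝ] ℝ) := fun φ =>
    ContinuousLinearMap.apply ℝ ℝ φ
  let S : Set (StrongDual ℝ (StrongDual ℝ X) →L[ℝ] ℝ) := ev '' {φ | ‖φ‖ ≤ 1}
  have hsep : Sep C J Λ S := by
    refine ⟨hΛ1, ?_, ?_, ?_⟩
    · intro z a ha
      obtain ⟨φ, hφ1, hφ2⟩ := z.exists_lt_apply_of_lt_opNorm ha
      refine ⟨ev φ, ⟨φ, hφ1.le, rfl⟩, ?_⟩
      exact hφ2
    · rintro _ ⟨φ, hφ, rfl⟩ z
      have := z.le_opNorm φ
      exact this.trans (mul_le_of_le_one_right (norm_nonneg _) hφ)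
    · intro G hG hGS ε hε
      obtain ⟨t, -, ht, rfl⟩ := (Set.exists_subset_image_finite_and
        (p := fun t => t = G)).1 ⟨G, hGS, hG, rfl⟩
      obtain ⟨x, hxC, hx⟩ := hΛ2 ht.toFinset ε hε
      refine ⟨x, hxC, ?_⟩
      rintro _ ⟨φ, hφ, rfl⟩
      exact hx φ (ht.mem_toFinset.2 hφ)
  exact basic_differences_of_sep hb hsep

end Pool.Agent.R270.UL
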