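import Pool.Agent.R270.UL3

set_option autoImplicit false

open Set Filter Topology
open scoped Pointwise

namespace Pool.Agent.R270.UL

variable {X : Type*} [NormedAddCommGroup X] [NormedSpace ℝ X]

/-- Nonincreasing sequences in `[0, 1]` with limit zero. -/
def HH : Set (ℕ → ℝ) := {H | Antitone H ∧ H 0 ≤ 1 ∧ Tendsto H atTop (𝓝 0)}

theorem HH.nonneg {H : ℕ → ℝ} (h : H ∈ HH) (n : ℕ) : 0 ≤ H n := h.1.le_of_tendsto h.2.2 n

theorem HH.le_one {H : ℕ → ℝ} (h : H ∈ HH) (n : ℕ) : H n ≤ 1 := (h.1 (Nat.zero_le n)).trans h.2.1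

/-- partial sums -/
noncomputable def ps (x : ℕ → X) (H : ℕ → ℝ) (N : ℕ) : X :=
  ∑ k ∈ Finset.range N, H k • (x (k + 1) - x k)

theorem ps_sub (x : ℕ → X) (H H' : ℕ → ℝ) (N : ℕ) :
    ps x H N - ps x H' N = ps x (fun k => H k - H' k) N := by
  unfold ps
  rw [← Finset.sum_sub_distrib]
  exact Finset.sum_congr rfl fun k _ => (sub_smul _ _ _).symm

/-- `z` is the point with coefficients `H` -/
def IsSum (x : ℕ → X) (H : ℕ → ℝ) (z : X) : Prop :=
  Tendsto (fun N => x 0 + ps x H N) atTop (𝓝 z)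

theorem IsSum.unique {x : ℕ → X} {H : ℕ → ℝ} {z z' : X} (h : IsSum x H z) (h' : IsSum x H z') :
    z = z' := tendsto_nhds_unique h h'

/-- Abel summation bound. -/
theorem abel (B : ℕ → ℝ) (hB : Monotone B) (hB0 : 0 ≤ B 0) (R : ℕ → X) (M : ℝ)
    (hR : ∀ j, ‖R j‖ ≤ M) (hR0 : R 0 = 0) (N : ℕ) :
    ‖∑ k ∈ Finset.range N, B k • (R (k + 1) - R k)‖ ≤ 2 * B N * M := by
  have key : ∀ N, ‖(∑ k ∈ Finset.range N, B k • (R (k + 1) - R k)) - B N • R N‖ ≤
      (B N - B 0) * M := by
    intro N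
    induction N with
    | zero => simp [hR0]
    | succ N ih =>
      have h1 : (∑ k ∈ Finset.range (N + 1), B k • (R (k + 1) - R k)) - B (N + 1) • R (N + 1) =
          ((∑ k ∈ Finset.range N, B k • (R (k + 1) - R k)) - B N • R N) -
            (B (N + 1) - B N) • R (N + 1) := by
        rw [Finset.sum_range_succ]
        module
      rw [h1]
      refine (norm_sub_le _ _).trans ?_
      rw [norm_smul, Real.norm_eq_abs, abs_of_nonneg (sub_nonneg.2 (hB (Nat.le_succ N)))]
      have h2 := mul_le_mul_of_nonneg_left (hR (N + 1)) (sub_nonneg.2 (hB (Nat.le_succ N)))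
      calc _ ≤ (B N - B 0) * M + (B (N + 1) - B N) * M := add_le_add ih h2
        _ = _ := by ring
  have hM : 0 ≤ M := (norm_nonneg _).trans (hR 0)
  have hBN : 0 ≤ B N := hB0.trans (hB (Nat.zero_le N))
  calc ‖∑ k ∈ Finset.range N, B k • (R (k + 1) - R k)‖
      = ‖((∑ k ∈ Finset.range N, B k • (R (k + 1) - R k)) - B N • R N) + B N • R N‖ := by
        rw [sub_add_cancel]
    _ ≤ (B N - B 0) * M + B N * M := by
        refine (norm_add_le _ _).trans (add_le_add (key N) ?_)
        rw [norm_smul, Real.norm_eq_abs, abs_of_nonneg hBN]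
        exact mul_le_mul_of_nonneg_left (hR N) hBN
    _ ≤ 2 * B N * M := by nlinarith

variable {x : ℕ → X} {L κ : ℝ}

/-- the assumption on the sequence -/
structure Good (x : ℕ → X) (L κ : ℝ) : Prop where
  L0 : 0 ≤ L
  κ0 : 0 ≤ κ
  coef : ∀ (G : ℕ → ℝ) (N j : ℕ), j < N → |G j| ≤ κ * ‖ps x G N‖
  proj : ∀ (G : ℕ → ℝ) (N j : ℕ), j ≤ N → ‖ps x G j‖ ≤ L * ‖ps x G N‖

theorem Good.coef_le (h : Good x L κ) {H H' : ℕ → ℝ} {z z' : X} (hz : IsSum x H z)
    (hz' : IsSum x H' z') (n : ℕ) : |H n - H' n| ≤ κ * ‖z - z'‖ := by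
  have h1 : Tendsto (fun N => κ * ‖ps x (fun k => H k - H' k) N‖) atTop (𝓝 (κ * ‖z - z'‖)) := by
    have h2 := (hz.sub hz').norm.const_mul κ
    refine h2.congr fun N => ?_
    rw [add_sub_add_left_eq_sub, ps_sub]
  refine ge_of_tendsto h1 ?_
  filter_upwards [eventually_gt_atTop n] with N hN
  exact h.coef (fun k => H k - H' k) N n hN

theorem Good.proj_le (h : Good x L κ) {H H' : ℕ → ℝ} {z z' : X} (hz : IsSum x H z)
    (hz' : IsSum x H' z') (n : ℕ) : ‖ps x (fun k => H k - H' k) n‖ ≤ L * ‖z - z'‖ := by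
  have h1 : Tendsto (fun N => L * ‖ps x (fun k => H k - H' k) N‖) atTop (𝓝 (L * ‖z - z'‖)) := by
    have h2 := (hz.sub hz').norm.const_mul L
    refine h2.congr fun N => ?_
    rw [add_sub_add_left_eq_sub, ps_sub]
  refine ge_of_tendsto h1 ?_
  filter_upwards [eventually_ge_atTop n] with N hN
  exact h.proj (fun k => H k - H' k) N n hN

/-- the invariant set -/
def KK (x : ℕ → X) : Set X := {z | ∃ H ∈ HH, IsSum x H z}

theorem exists_isSum [CompleteSpace X] {D : ℝ} (hD : ∀ i j, ‖x i - x j‖ ≤ D) {H : ℕ → ℝ}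
    (hH : H ∈ HH) : ∃ z, IsSum x H z := by
  have hD0 : 0 ≤ D := (norm_nonneg _).trans (hD 0 0)
  have key : ∀ N M, N ≤ M → ‖ps x H M - ps x H N - H M • (x M - x N)‖ ≤ D * (H N - H M) := by
    intro N M hNM
    induction M, hNM using Nat.le_induction with
    | base => simp
    | succ M hM ih =>
      have h1 : ps x H (M + 1) - ps x H N - H (M + 1) • (x (M + 1) - x N) =
          (ps x H M - ps x H N - H M • (x M - x N)) + (H M - H (M + 1)) • (x (M + 1) - x N) := by
        unfold ps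
        rw [Finset.sum_range_succ]
        module
      rw [h1]
      refine (norm_add_le _ _).trans ?_
      have h0 : 0 ≤ H M - H (M + 1) := sub_nonneg.2 (hH.1 (Nat.le_succ M))
      rw [norm_smul, Real.norm_eq_abs, abs_of_nonneg h0]
      have h2 := mul_le_mul_of_nonneg_left (hD (M + 1) N) h0
      calc _ ≤ D * (H N - H M) + (H M - H (M + 1)) * D := add_le_add ih h2
        _ = _ := by ring
  have key2 : ∀ N M, N ≤ M → ‖ps x H M - ps x H N‖ ≤ D * H N := by
    intro N M hNM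
    have h1 := key N M hNM
    have h2 : ‖H M • (x M - x N)‖ ≤ H M * D := by
      rw [norm_smul, Real.norm_eq_abs, abs_of_nonneg (HH.nonneg hH M)]
      exact mul_le_mul_of_nonneg_left (hD M N) (HH.nonneg hH M)
    calc ‖ps x H M - ps x H N‖ = ‖(ps x H M - ps x H N - H M • (x M - x N)) + H M • (x M - x N)‖ := by
          rw [sub_add_cancel]
      _ ≤ D * (H N - H M) + H M * D := (norm_add_le _ _).trans (add_le_add h1 h2)
      _ = D * H N := by ring
  have hcau : CauchySeq (fun N => x 0 + ps x H N) := by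
    rw [Metric.cauchySeq_iff']
    intro ε hε
    have h3 : Tendsto (fun N => D * H N) atTop (𝓝 0) := by
      simpa using hH.2.2.const_mul D
    obtain ⟨N, hN⟩ := (h3.eventually (gt_mem_nhds hε)).exists
    refine ⟨N, fun n hn => ?_⟩
    rw [dist_eq_norm, add_sub_add_left_eq_sub]
    exact (key2 N n hn).trans_lt hN
  exact cauchySeq_tendsto_of_complete hcau

theorem mem_of_isSum {C : Set X} (hc : IsClosed C) (hconv : Convex ℝ C) (hx : ∀ n, x n ∈ C)
    {H : ℕ → ℝ} (hH : H ∈ HH) {z : X} (hz : IsSum x H z) : z ∈ C := by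
  have key : ∀ N, x 0 + ps x H N - H N • x N ∈ (1 - H N) • C := by
    intro N
    induction N with
    | zero =>
      refine ⟨x 0, hx 0, ?_⟩
      simp only [ps, Finset.range_zero, Finset.sum_empty]
      module
    | succ N ih =>
      have h1 : (1 - H (N + 1)) • C = (1 - H N) • C + (H N - H (N + 1)) • C := by
        rw [← hconv.add_smul (sub_nonneg.2 (HH.le_one hH N)) (sub_nonneg.2 (hH.1 (Nat.le_succ N)))]
        congr 1
        ring
      rw [h1]
      refine ⟨_, ih, (H N - H (N + 1)) • x (N + 1), smul_mem_smul_set (hx _), ?_⟩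
      unfold ps
      rw [Finset.sum_range_succ]
      module
  refine hc.mem_of_tendsto hz (Eventually.of_forall fun N => ?_)
  have h1 : (1 - H N) • C + (H N) • C = C := by
    rw [← hconv.add_smul (sub_nonneg.2 (HH.le_one hH N)) (HH.nonneg hH N), sub_add_cancel, one_smul]
  rw [← h1]
  refine ⟨_, key N, H N • x N, smul_mem_smul_set (hx _), ?_⟩
  simp

theorem isSum_zero : IsSum x 0 (x 0) := by
  unfold IsSum ps
  simp

theorem zero_mem_HH : (0 : ℕ → ℝ) ∈ HH :=
  ⟨fun _ _ _ => le_rfl, by simp, tendsto_const_nhds⟩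

theorem isSum_comb {H H' : ℕ → ℝ} {z z' : X} (hz : IsSum x H z) (hz' : IsSum x H' z') {s t : ℝ}
    (hst : s + t = 1) : IsSum x (fun k => s * H k + t * H' k) (s • z + t • z') := by
  have := (Filter.Tendsto.const_smul hz s).add (Filter.Tendsto.const_smul hz' t)
  refine this.congr fun N => ?_
  have hx0 : x 0 = s • x 0 + t • x 0 := by rw [← add_smul, hst, one_smul]
  have h2 : ps x (fun k => s * H k + t * H' k) N = s • ps x H N + t • ps x H' N := by
    unfold ps
    rw [Finset.smul_sum, Finset.smul_sum, ← Finset.sum_add_distrib]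
    refine Finset.sum_congr rfl fun k _ => ?_
    module
  rw [h2]
  conv_rhs => rw [hx0]
  module

theorem comb_mem_HH {H H' : ℕ → ℝ} (h : H ∈ HH) (h' : H' ∈ HH) {s t : ℝ} (hs : 0 ≤ s) (ht : 0 ≤ t)
    (hst : s + t = 1) : (fun k => s * H k + t * H' k) ∈ HH := by
  refine ⟨fun i j hij => ?_, ?_, ?_⟩
  · exact add_le_add (mul_le_mul_of_nonneg_left (h.1 hij) hs) (mul_le_mul_of_nonneg_left (h'.1 hij) ht)
  · have h1 := mul_le_mul_of_nonneg_left h.2.1 hs
    have h2 := mul_le_mul_of_nonneg_left h'.2.1 ht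
    show s * H 0 + t * H' 0 ≤ 1
    linarith
  · have := (h.2.2.const_mul s).add (h'.2.2.const_mul t)
    simpa using this

theorem convex_KK : Convex ℝ (KK x) := by
  rintro z ⟨H, hH, hz⟩ z' ⟨H', hH', hz'⟩ s t hs ht hst
  exact ⟨_, comb_mem_HH hH hH' hs ht hst, isSum_comb hz hz' hst⟩

theorem isClosed_KK (h : Good x L κ) : IsClosed (KK x) := by
  refine IsSeqClosed.isClosed ?_
  intro z z₀ hz hlim
  choose H hH hHz using hz
  have hκ : ∀ n i j, |H i n - H j n| ≤ κ * ‖z i - z j‖ := fun n i j => h.coef_le (hHz i) (hHz j) n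
  have hcau : ∀ n, CauchySeq (fun i => H i n) := by
    intro n
    rw [Metric.cauchySeq_iff']
    intro ε hε
    have hc := hlim.cauchySeq
    rw [Metric.cauchySeq_iff'] at hc
    obtain ⟨N, hN⟩ := hc (ε / (κ + 1)) (by have := h.κ0; positivity)
    refine ⟨N, fun i hi => ?_⟩
    rw [Real.dist_eq]
    have h1 := hN i hi
    rw [dist_eq_norm, lt_div_iff₀ (by have := h.κ0; positivity)] at h1
    have h2 := hκ n i N
    have h3 := norm_nonneg (z i - z N)
    nlinarith
  have hlimH : ∀ n, ∃ a, Tendsto (fun i => H i n) atTop (𝓝 a) := fun n =>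
    cauchySeq_tendsto_of_complete (hcau n)
  choose G hG using hlimH
  have hGκ : ∀ i n, |H i n - G n| ≤ κ * ‖z i - z₀‖ := by
    intro i n
    have h1 : Tendsto (fun j => |H i n - H j n|) atTop (𝓝 |H i n - G n|) :=
      (tendsto_const_nhds.sub (hG n)).abs
    have h2 : Tendsto (fun j => κ * ‖z i - z j‖) atTop (𝓝 (κ * ‖z i - z₀‖)) :=
      (tendsto_const_nhds.sub hlim).norm.const_mul κ
    exact le_of_tendsto_of_tendsto' h1 h2 fun j => hκ n i j
  have hGL : ∀ i n, ‖ps x (fun k => H i k - G k) n‖ ≤ L * ‖z i - z₀‖ := by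
    intro i n
    have h1 : Tendsto (fun j => ‖ps x (fun k => H i k - H j k) n‖) atTop
        (𝓝 ‖ps x (fun k => H i k - G k) n‖) := by
      refine Tendsto.norm ?_
      unfold ps
      refine tendsto_finsetSum _ fun k _ => ?_
      exact (tendsto_const_nhds.sub (hG k)).smul_const _
    have h2 : Tendsto (fun j => L * ‖z i - z j‖) atTop (𝓝 (L * ‖z i - z₀‖)) :=
      (tendsto_const_nhds.sub hlim).norm.const_mul L
    exact le_of_tendsto_of_tendsto' h1 h2 fun j => h.proj_le (hHz i) (hHz j) n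
  have hz0 : Tendsto (fun i => ‖z i - z₀‖) atTop (𝓝 0) := by
    have := (hlim.sub (tendsto_const_nhds (x := z₀))).norm
    simpa using this
  refine ⟨G, ⟨?_, ?_, ?_⟩, ?_⟩
  · intro m n hmn
    exact le_of_tendsto_of_tendsto' (hG n) (hG m) fun i => (hH i).1 hmn
  · exact le_of_tendsto' (hG 0) fun i => (hH i).2.1
  · rw [Metric.tendsto_atTop]
    intro ε hε
    have h1 : Tendsto (fun i => κ * ‖z i - z₀‖) atTop (𝓝 0) := by simpa using hz0.const_mul κ
    obtain ⟨i, hi⟩ := (h1.eventually (gt_mem_nhds (half_pos hε))).exists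
    have h2 := Metric.tendsto_atTop.1 (hH i).2.2 (ε / 2) (half_pos hε)
    obtain ⟨N, hN⟩ := h2
    refine ⟨N, fun n hn => ?_⟩
    have h3 := hN n hn
    rw [Real.dist_eq, sub_zero] at h3 ⊢
    have h4 := hGκ i n
    calc |G n| = |H i n - (H i n - G n)| := by rw [sub_sub_cancel]
      _ ≤ |H i n| + |H i n - G n| := abs_sub _ _
      _ < ε := by linarith
  · show Tendsto (fun N => x 0 + ps x G N) atTop (𝓝 z₀)
    rw [Metric.tendsto_atTop]
    intro ε hε
    have h1 : Tendsto (fun i => (L + 1) * ‖z i - z₀‖) atTop (𝓝 0) := by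
      simpa using hz0.const_mul (L + 1)
    obtain ⟨i, hi⟩ := (h1.eventually (gt_mem_nhds (half_pos hε))).exists
    obtain ⟨N, hN⟩ := Metric.tendsto_atTop.1 (hHz i) (ε / 2) (half_pos hε)
    refine ⟨N, fun n hn => ?_⟩
    have h3 := hN n hn
    rw [dist_eq_norm] at h3 ⊢
    have h4 := hGL i n
    rw [← ps_sub] at h4
    calc ‖x 0 + ps x G n - z₀‖ = ‖(x 0 + ps x (H i) n - z i) - (ps x (H i) n - ps x G n) +
          (z i - z₀)‖ := by congr 1; abel
      _ ≤ ‖x 0 + ps x (H i) n - z i‖ + ‖ps x (H i) n - ps x G n‖ + ‖z i - z₀‖ :=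
          (norm_add_le _ _).trans (add_le_add_left (norm_sub_le _ _) _)
      _ < ε := by linarith

end Pool.Agent.R270.UL
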