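import Pool.Agent.R270.UL4

set_option autoImplicit false

open Set Filter Topology
open scoped Pointwise

namespace Pool.Agent.R270.UL

variable {X : Type*} [NormedAddCommGroup X] [NormedSpace ℝ X] {x : ℕ → X} {L κ : ℝ}

/-- the multiplier, a distribution function with values in `(0, 1)` -/
noncomputable def AA (n : ℕ) : ℝ := 1 - 1 / ((n : ℝ) + 2)

theorem AA_pos (n : ℕ) : 0 ≤ AA n := by
  have h : (0 : ℝ) < (n : ℝ) + 2 := by positivity
  rw [AA, sub_nonneg, div_le_one h]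
  have : (0 : ℝ) ≤ n := Nat.cast_nonneg n
  linarith

theorem AA_lt (n : ℕ) : AA n < 1 := by
  have h : (0 : ℝ) < 1 / ((n : ℝ) + 2) := by positivity
  rw [AA]
  linarith

theorem AA_mono : Monotone AA := by
  intro m n h
  have h1 : (m : ℝ) ≤ n := by exact_mod_cast h
  have h2 : 1 / ((n : ℝ) + 2) ≤ 1 / ((m : ℝ) + 2) := by
    apply one_div_le_one_div_of_le (by positivity)
    linarith
  simp only [AA]
  linarith

theorem AA_tendsto : Tendsto AA atTop (𝓝 1) := by
  have h1 : Tendsto (fun n : ℕ => 1 / ((n : ℝ) + 2)) atTop (𝓝 0) := by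
    have h2 : Tendsto (fun n : ℕ => (n : ℝ) + 2) atTop atTop :=
      tendsto_atTop_add_const_right _ _ tendsto_natCast_atTop_atTop
    exact h2.const_div_atTop 1
  have h3 := (tendsto_const_nhds (x := (1 : ℝ))).sub h1
  rw [sub_zero] at h3
  exact h3

theorem AAp_mono (p : ℕ) : Monotone fun n => AA n ^ p := fun m n h =>
  pow_le_pow_left₀ (AA_pos m) (AA_mono h) p

/-- the action on coefficients of the `p`-th iterate -/
noncomputable def Ph (p : ℕ) (H : ℕ → ℝ) : ℕ → ℝ := fun n => 1 - AA n ^ p * (1 - H n)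

theorem Ph_mem {H : ℕ → ℝ} (hH : H ∈ HH) (p : ℕ) : Ph p H ∈ HH := by
  refine ⟨fun m n hmn => ?_, ?_, ?_⟩
  · have h1 : AA m ^ p * (1 - H m) ≤ AA n ^ p * (1 - H n) :=
      mul_le_mul (AAp_mono p hmn) (sub_le_sub_left (hH.1 hmn) 1) (sub_nonneg.2 (HH.le_one hH m))
        (pow_nonneg (AA_pos n) p)
    exact sub_le_sub_left h1 1
  · have := mul_nonneg (pow_nonneg (AA_pos 0) p) (sub_nonneg.2 (HH.le_one hH 0))
    show 1 - AA 0 ^ p * (1 - H 0) ≤ 1
    linarith
  · have h1 := (AA_tendsto.pow p).mul ((tendsto_const_nhds (x := (1 : ℝ))).sub hH.2.2)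
    have h2 := (tendsto_const_nhds (x := (1 : ℝ))).sub h1
    have h3 : (1 : ℝ) - 1 ^ p * (1 - 0) = 0 := by simp
    rw [h3] at h2
    exact h2

theorem Ph_one_comp (p : ℕ) (H : ℕ → ℝ) : Ph 1 (Ph p H) = Ph (p + 1) H := by
  funext n
  simp only [Ph]
  ring

theorem exists_map [CompleteSpace X] (h : Good x L κ) {D : ℝ} (hD : ∀ i j, ‖x i - x j‖ ≤ D) :
    ∃ f : X → X, ∀ H ∈ HH, ∀ z, IsSum x H z → IsSum x (Ph 1 H) (f z) := by
  classical
  have h1 : ∀ z : X, ∃ w : X, ∀ H ∈ HH, IsSum x H z → IsSum x (Ph 1 H) w := by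
    intro z
    by_cases hz : ∃ H ∈ HH, IsSum x H z
    · obtain ⟨H, hH, hHz⟩ := hz
      obtain ⟨w, hw⟩ := exists_isSum hD (Ph_mem hH 1)
      refine ⟨w, fun H' hH' hHz' => ?_⟩
      have : H' = H := by
        funext n
        have h2 := h.coef_le hHz' hHz n
        rw [sub_self, norm_zero, mul_zero] at h2
        have h3 := abs_nonpos_iff.1 h2
        linarith
      rw [this]
      exact hw
    · exact ⟨z, fun H hH hHz => absurd ⟨H, hH, hHz⟩ hz⟩
  choose f hf using h1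
  exact ⟨f, fun H hH z hz => hf z H hH hz⟩

theorem iterate_isSum {f : X → X} (hf : ∀ H ∈ HH, ∀ z, IsSum x H z → IsSum x (Ph 1 H) (f z))
    {H : ℕ → ℝ} (hH : H ∈ HH) {z : X} (hz : IsSum x H z) (p : ℕ) :
    IsSum x (Ph p H) (f^[p] z) := by
  induction p with
  | zero =>
    have : Ph 0 H = H := by
      funext n
      simp [Ph]
    rw [this]
    exact hz
  | succ p ih =>
    rw [Function.iterate_succ_apply', ← Ph_one_comp]
    exact hf _ (Ph_mem hH p) _ ih

theorem lipschitz {f : X → X} (h : Good x L κ)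
    (hf : ∀ H ∈ HH, ∀ z, IsSum x H z → IsSum x (Ph 1 H) (f z))
    {z z' : X} (hz : z ∈ KK x) (hz' : z' ∈ KK x) (p : ℕ) :
    ‖f^[p] z - f^[p] z'‖ ≤ 2 * L * ‖z - z'‖ := by
  obtain ⟨H, hH, hHz⟩ := hz
  obtain ⟨H', hH', hHz'⟩ := hz'
  have h1 := (iterate_isSum hf hH hHz p).sub (iterate_isSum hf hH' hHz' p)
  refine le_of_tendsto h1.norm (Eventually.of_forall fun N => ?_)
  rw [add_sub_add_left_eq_sub, ps_sub]
  let R : ℕ → X := fun j => ps x (fun k => H k - H' k) j
  have h2 : ps x (fun k => Ph p H k - Ph p H' k) N =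
      ∑ k ∈ Finset.range N, (AA k ^ p) • (R (k + 1) - R k) := by
    unfold ps
    refine Finset.sum_congr rfl fun k _ => ?_
    have : R (k + 1) - R k = (H k - H' k) • (x (k + 1) - x k) := by
      simp only [R, ps, Finset.sum_range_succ]
      abel
    rw [this, smul_smul]
    congr 1
    simp only [Ph]
    ring
  rw [h2]
  have h3 := abel (fun k => AA k ^ p) (AAp_mono p) (pow_nonneg (AA_pos 0) p) R (L * ‖z - z'‖)
    (fun j => h.proj_le hHz hHz' j) (by simp [R, ps]) N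
  refine h3.trans ?_
  have h4 : 0 ≤ L * ‖z - z'‖ := mul_nonneg h.L0 (norm_nonneg _)
  have h5 : AA N ^ p ≤ 1 := pow_le_one₀ (AA_pos N) (AA_lt N).le
  nlinarith

theorem no_fixed {f : X → X} (h : Good x L κ)
    (hf : ∀ H ∈ HH, ∀ z, IsSum x H z → IsSum x (Ph 1 H) (f z)) {z : X} (hz : z ∈ KK x) :
    f z ≠ z := by
  intro hfz
  obtain ⟨H, hH, hHz⟩ := hz
  have h1 := hf H hH z hHz
  rw [hfz] at h1
  have h2 : ∀ n, H n = 1 := by
    intro n
    have h3 := h.coef_le hHz h1 n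
    rw [sub_self, norm_zero, mul_zero] at h3
    have h4 := abs_nonpos_iff.1 h3
    simp only [Ph, pow_one] at h4
    have h5 : (1 - AA n) * (1 - H n) = 0 := by linarith
    rcases mul_eq_zero.1 h5 with h6 | h6
    · exact absurd h6 (sub_pos.2 (AA_lt n)).ne'
    · linarith
  have h3 : Tendsto H atTop (𝓝 1) := by
    have : H = fun _ => (1 : ℝ) := funext h2
    rw [this]
    exact tendsto_const_nhds
  exact zero_ne_one (tendsto_nhds_unique hH.2.2 h3)

/-- Every bounded closed convex set which is not weakly compact contains a closed convex set with a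
uniformly Lipschitz affine self-map without fixed points. -/
theorem exists_fixed_point_free [CompleteSpace X] {C : Set X} (hb : Bornology.IsBounded C)
    (hc : IsClosed C) (hconv : Convex ℝ C) (hnw : ¬ IsCompact (toWeakSpace ℝ X '' C)) :
    ∃ K : Set X, K ⊆ C ∧ K.Nonempty ∧ IsClosed K ∧ Convex ℝ K ∧ ∃ f : X → X, MapsTo f K K ∧
      (∀ x ∈ K, ∀ y ∈ K, ∀ t ∈ Icc (0 : ℝ) 1,
        f (t • x + (1 - t) • y) = t • f x + (1 - t) • f y) ∧
      (∃ L > 0, ∀ x ∈ K, ∀ y ∈ K, ∀ p : ℕ, ‖f^[p] x - f^[p] y‖ ≤ L * ‖x - y‖) ∧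
      ∀ x ∈ K, f x ≠ x := by
  obtain ⟨x, L, κ, hL, hκ, hxC, hx⟩ := exists_basic_differences hb hc hconv hnw
  have h : Good x L κ := ⟨hL, hκ, fun G N j hj => (hx G N j hj.le).1 hj,
    fun G N j hj => (hx G N j hj).2⟩
  obtain ⟨R, hR⟩ := hb.exists_norm_le
  have hD : ∀ i j, ‖x i - x j‖ ≤ R + R := fun i j =>
    (norm_sub_le _ _).trans (add_le_add (hR _ (hxC i)) (hR _ (hxC j)))
  obtain ⟨f, hf⟩ := exists_map h hD
  refine ⟨KK x, ?_, ⟨x 0, 0, zero_mem_HH, isSum_zero⟩, isClosed_KK h, convex_KK, f, ?_, ?_, ?_, ?_⟩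
  · rintro z ⟨H, hH, hHz⟩
    exact mem_of_isSum hc hconv hxC hH hHz
  · rintro z ⟨H, hH, hHz⟩
    exact ⟨_, Ph_mem hH 1, hf H hH z hHz⟩
  · rintro z ⟨H, hH, hHz⟩ z' ⟨H', hH', hHz'⟩ t ⟨ht0, ht1⟩
    have h1 := hf _ (comb_mem_HH hH hH' ht0 (sub_nonneg.2 ht1) (by ring)) _
      (isSum_comb hHz hHz' (s := t) (t := 1 - t) (by ring))
    have h2 := isSum_comb (hf H hH z hHz) (hf H' hH' z' hHz') (s := t) (t := 1 - t) (by ring)
    have h3 : Ph 1 (fun k => t * H k + (1 - t) * H' k) =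
        fun k => t * Ph 1 H k + (1 - t) * Ph 1 H' k := by
      funext n
      simp only [Ph]
      ring
    rw [h3] at h1
    exact h1.unique h2
  · refine ⟨2 * L + 1, by positivity, fun z hz z' hz' p => ?_⟩
    refine (lipschitz h hf hz hz' p).trans ?_
    have := norm_nonneg (z - z')
    nlinarith
  · intro z hz
    exact no_fixed h hf hz

/-- The converse: affine Lipschitz self-maps of weakly compact convex sets have fixed points. -/
theorem exists_fixed_point {C K : Set X} (hw : IsCompact (toWeakSpace ℝ X '' C))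
    (hKC : K ⊆ C) (hne : K.Nonempty) (hb : Bornology.IsBounded K) (hc : IsClosed K)
    (hconv : Convex ℝ K) (f : X → X) (hfK : MapsTo f K K)
    (haff : ∀ x ∈ K, ∀ y ∈ K, ∀ t ∈ Icc (0 : ℝ) 1,
        f (t • x + (1 - t) • y) = t • f x + (1 - t) • f y)
    (hlip : ∃ L > 0, ∀ x ∈ K, ∀ y ∈ K, ∀ p : ℕ, ‖f^[p] x - f^[p] y‖ ≤ L * ‖x - y‖) :
    ∃ x ∈ K, f x = x := by
  obtain ⟨L, hL, hLip⟩ := hlip
  have hcont : ContinuousOn f K := by
    have : LipschitzOnWith ⟨L, hL.le⟩ f K := by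
      refine LipschitzOnWith.of_dist_le_mul fun x hx y hy => ?_
      rw [dist_eq_norm, dist_eq_norm]
      exact hLip x hx y hy 1
    exact this.continuousOn
  obtain ⟨x₀, hx₀⟩ := hne
  obtain ⟨R, hR⟩ := hb.exists_norm_le
  -- approximate fixed points
  have happ : ∀ n : ℕ, ∃ z ∈ K, f z - z = ((n : ℝ) + 1)⁻¹ • (f^[n + 1] x₀ - x₀) := by
    intro n
    have hit : ∀ n, f^[n] x₀ ∈ K := fun n => hfK.iterate n hx₀
    induction n with
    | zero => exact ⟨x₀, hx₀, by simp⟩
    | succ n ih =>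
      obtain ⟨z, hz, hfz⟩ := ih
      have hn : (0 : ℝ) < (n : ℝ) + 1 := by positivity
      have hn2 : (0 : ℝ) < (n : ℝ) + 1 + 1 := by positivity
      set t : ℝ := ((n : ℝ) + 1) / ((n : ℝ) + 1 + 1) with ht
      have ht0 : 0 ≤ t := by positivity
      have ht1 : t ≤ 1 := by
        rw [ht, div_le_one hn2]
        linarith
      have h1t : 1 - t = ((n : ℝ) + 1 + 1)⁻¹ := by
        rw [ht]
        field_simp
        ring
      refine ⟨t • z + (1 - t) • f^[n + 1] x₀,
        hconv hz (hit (n + 1)) ht0 (sub_nonneg.2 ht1) (by ring), ?_⟩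
      rw [haff z hz _ (hit (n + 1)) t ⟨ht0, ht1⟩, ← Function.iterate_succ_apply' f (n + 1)]
      have h3 : t • f z + (1 - t) • f^[n + 1 + 1] x₀ - (t • z + (1 - t) • f^[n + 1] x₀) =
          t • (f z - z) + (1 - t) • (f^[n + 1 + 1] x₀ - f^[n + 1] x₀) := by module
      rw [h3, hfz, smul_smul, h1t]
      have h4 : t * ((n : ℝ) + 1)⁻¹ = ((n : ℝ) + 1 + 1)⁻¹ := by
        rw [ht]
        field_simp
      rw [h4]
      push_cast
      module
  -- the sets of approximate fixed points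
  let A : ℕ → Set X := fun n => {z | z ∈ K ∧ ‖f z - z‖ ≤ (2 * R) / ((n : ℝ) + 1)}
  have hAne : ∀ n, (A n).Nonempty := by
    intro n
    obtain ⟨z, hz, hfz⟩ := happ n
    refine ⟨z, hz, ?_⟩
    rw [hfz, norm_smul, norm_inv, Real.norm_eq_abs, abs_of_pos (by positivity), div_eq_inv_mul]
    refine mul_le_mul_of_nonneg_left ?_ (by positivity)
    refine (norm_sub_le _ _).trans ?_
    have h1 := hR _ (hfK.iterate (n + 1) hx₀)
    have h2 := hR _ hx₀
    linarith
  have hAconv : ∀ n, Convex ℝ (A n) := by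
    rintro n z ⟨hz, hz'⟩ w ⟨hw, hw'⟩ s t hs ht hst
    refine ⟨hconv hz hw hs ht hst, ?_⟩
    have ht' : t = 1 - s := by linarith
    subst ht'
    rw [haff z hz w hw s ⟨hs, by linarith⟩]
    have h3 : s • f z + (1 - s) • f w - (s • z + (1 - s) • w) =
        s • (f z - z) + (1 - s) • (f w - w) := by module
    rw [h3]
    refine (norm_add_le _ _).trans ?_
    rw [norm_smul, norm_smul, Real.norm_eq_abs, Real.norm_eq_abs, abs_of_nonneg hs,
      abs_of_nonneg ht]
    have h4 := mul_le_mul_of_nonneg_left hz' hs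
    have h5 := mul_le_mul_of_nonneg_left hw' ht
    linarith
  have hAclosed : ∀ n, IsClosed (A n) := by
    intro n
    have hco : ContinuousOn (fun z => ‖f z - z‖) K := (hcont.sub continuousOn_id).norm
    have := hco.preimage_isClosed_of_isClosed hc (isClosed_Iic (a := (2 * R) / ((n : ℝ) + 1)))
    exact this
  have hR0 : 0 ≤ 2 * R := by
    have := (norm_nonneg _).trans (hR _ hx₀)
    linarith
  have hAanti : ∀ n, A (n + 1) ⊆ A n := by
    rintro n z ⟨hz, hz'⟩
    refine ⟨hz, hz'.trans ?_⟩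
    push_cast
    apply div_le_div_of_nonneg_left hR0 (by positivity)
    linarith
  have hweak : ∀ n, IsClosed (toWeakSpace ℝ X '' A n) := by
    intro n
    have := (hAconv n).toWeakSpace_closure (𝕜 := ℝ)
    rw [(hAclosed n).closure_eq] at this
    rw [this]
    exact isClosed_closure
  have hcomp : IsCompact (toWeakSpace ℝ X '' A 0) :=
    hw.of_isClosed_subset (hweak 0) (image_mono fun z hz => hKC hz.1)
  obtain ⟨y, hy⟩ := IsCompact.nonempty_iInter_of_sequence_nonempty_isCompact_isClosed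
    (fun n => toWeakSpace ℝ X '' A n) (fun n => image_mono (hAanti n))
    (fun n => (hAne n).image _) hcomp hweak
  rw [mem_iInter] at hy
  obtain ⟨z, hz, hzy⟩ := hy 0
  have hzA : ∀ n, z ∈ A n := by
    intro n
    obtain ⟨z', hz', hzy'⟩ := hy n
    have : z' = z := (toWeakSpace ℝ X).injective (hzy'.trans hzy.symm)
    rwa [← this]
  refine ⟨z, hz.1, ?_⟩
  have h6 : ‖f z - z‖ ≤ 0 := by
    have h7 : Tendsto (fun n : ℕ => (2 * R) / ((n : ℝ) + 1)) atTop (𝓝 0) := by
      have h8 : Tendsto (fun n : ℕ => (n : ℝ) + 1) atTop atTop :=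
        tendsto_atTop_add_const_right _ _ tendsto_natCast_atTop_atTop
      exact h8.const_div_atTop _
    exact ge_of_tendsto' h7 fun n => (hzA n).2
  exact sub_eq_zero.1 (norm_le_zero_iff.1 h6)

end Pool.Agent.R270.UL
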