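import Mathlib

/-!
# A uniform convexity inequality for `L_p` and `ℓ_p` and the nested intersection property
-/

namespace Pool.Agent.R270.UnifConv

open Set Filter Topology
open scoped ENNReal

/-- Strict convexity of `|t| ^ r`. -/
lemma strict (r : ℝ) (hr : 1 < r) (a b : ℝ) (hab : a ≠ b) :
    |(a + b) / 2| ^ r < (|a| ^ r + |b| ^ r) / 2 := by
  by_cases h : |a| = |b|
  · have hb : b = -a := by
      rcases abs_eq_abs.1 h with h1 | h1
      · exact absurd h1 hab
      · linarith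
    have ha : a ≠ 0 := by
      rintro rfl
      apply hab; rw [hb]; simp
    subst hb
    have h0 : (0 : ℝ) < |a| ^ r := Real.rpow_pos_of_pos (abs_pos.2 ha) r
    rw [add_neg_cancel, zero_div, abs_zero, Real.zero_rpow (by linarith), abs_neg]
    linarith
  · have h1 := (strictConvexOn_rpow hr).2 (show |a| ∈ Ici (0 : ℝ) from abs_nonneg a)
      (show |b| ∈ Ici (0 : ℝ) from abs_nonneg b) h (show (0 : ℝ) < 1 / 2 by norm_num)
      (show (0 : ℝ) < 1 / 2 by norm_num) (by norm_num)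
    simp only [smul_eq_mul] at h1
    have h2 : |(a + b) / 2| ≤ 1 / 2 * |a| + 1 / 2 * |b| := by
      rw [abs_div, abs_two]
      linarith [abs_add_le a b]
    have h3 : |(a + b) / 2| ^ r ≤ (1 / 2 * |a| + 1 / 2 * |b|) ^ r :=
      Real.rpow_le_rpow (abs_nonneg _) h2 (by linarith)
    linarith

lemma weak (r : ℝ) (hr : 1 < r) (a b : ℝ) :
    |(a + b) / 2| ^ r ≤ (|a| ^ r + |b| ^ r) / 2 := by
  by_cases h : a = b
  · subst h
    have : (a + a) / 2 = a := by ring
    rw [this]; linarith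
  · exact (strict r hr a b h).le

/-- The pointwise uniform convexity inequality on the unit sphere. -/
lemma pointwise_sphere (r : ℝ) (hr : 1 < r) (ε : ℝ) (hε : 0 < ε) :
    ∃ C : ℝ, 0 ≤ C ∧ ∀ a b : ℝ, |a| ^ r + |b| ^ r = 1 →
      |a - b| ^ r ≤ ε + C * ((|a| ^ r + |b| ^ r) / 2 - |(a + b) / 2| ^ r) := by
  have hr0 : 0 < r := by linarith
  have hcont : ∀ f : ℝ × ℝ → ℝ, Continuous f → Continuous fun z => |f z| ^ r := fun f hf =>
    (continuous_abs.comp hf).rpow_const fun _ => Or.inr hr0.le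
  set K : Set (ℝ × ℝ) := {z | |z.1| ^ r + |z.2| ^ r = 1} ∩ {z | ε ≤ |z.1 - z.2| ^ r} with hK
  have hle : ∀ z : ℝ × ℝ, |z.1| ^ r + |z.2| ^ r = 1 → |z.1| ≤ 1 ∧ |z.2| ≤ 1 := by
    intro z hz
    have h1 : 0 ≤ |z.1| ^ r := Real.rpow_nonneg (abs_nonneg _) _
    have h2 : 0 ≤ |z.2| ^ r := Real.rpow_nonneg (abs_nonneg _) _
    constructor
    · by_contra hcon
      push Not at hcon
      have := Real.one_lt_rpow hcon hr0
      linarith
    · by_contra hcon
      push Not at hcon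
      have := Real.one_lt_rpow hcon hr0
      linarith
  have hKcomp : IsCompact K := by
    apply Metric.isCompact_of_isClosed_isBounded
    · refine IsClosed.inter ?_ ?_
      · exact isClosed_eq ((hcont _ continuous_fst).add (hcont _ continuous_snd)) continuous_const
      · exact isClosed_le continuous_const (hcont _ (continuous_fst.sub continuous_snd))
    · refine (Metric.isBounded_closedBall (x := (0 : ℝ × ℝ)) (r := 1)).subset ?_
      rintro z ⟨hz, -⟩
      have := hle z hz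
      rw [mem_closedBall_zero_iff, Prod.norm_def]
      exact max_le this.1 this.2
  set ψ : ℝ × ℝ → ℝ := fun z => (|z.1| ^ r + |z.2| ^ r) / 2 - |(z.1 + z.2) / 2| ^ r with hψ
  have hψc : Continuous ψ :=
    (((hcont _ continuous_fst).add (hcont _ continuous_snd)).div_const 2).sub
      (hcont _ ((continuous_fst.add continuous_snd).div_const 2))
  rcases K.eq_empty_or_nonempty with hemp | hne
  · refine ⟨0, le_rfl, fun a b hab => ?_⟩
    have : (a, b) ∉ K := by rw [hemp]; exact notMem_empty _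
    have h1 : ¬ ε ≤ |a - b| ^ r := fun h => this ⟨hab, h⟩
    push Not at h1
    linarith
  · obtain ⟨z0, hz0, hmin⟩ := hKcomp.exists_isMinOn hne hψc.continuousOn
    have hpos : 0 < ψ z0 := by
      have hne0 : z0.1 ≠ z0.2 := by
        intro h
        have h1 := hz0.2
        simp only [mem_ofPred_eq, h, sub_self, abs_zero, Real.zero_rpow hr0.ne'] at h1
        linarith
      have := strict r hr z0.1 z0.2 hne0
      simp only [hψ]
      linarith
    refine ⟨2 ^ r / ψ z0, by positivity, fun a b hab => ?_⟩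
    have hw := weak r hr a b
    have hCnn : 0 ≤ 2 ^ r / ψ z0 := by positivity
    by_cases h1 : ε ≤ |a - b| ^ r
    · have h2 : ψ z0 ≤ ψ (a, b) := hmin (show (a, b) ∈ K from ⟨hab, h1⟩)
      have h3 : |a - b| ^ r ≤ 2 ^ r := by
        apply Real.rpow_le_rpow (abs_nonneg _) _ hr0.le
        have := hle (a, b) hab
        have h4 : |a - b| ≤ |a| + |b| := abs_sub a b
        simp only at this
        linarith [this.1, this.2]
      have h5 : (2 : ℝ) ^ r ≤ 2 ^ r / ψ z0 * ψ (a, b) := by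
        rw [div_mul_eq_mul_div, le_div_iff₀ hpos]
        exact mul_le_mul_of_nonneg_left h2 (by positivity)
      have h6 : ψ (a, b) = (|a| ^ r + |b| ^ r) / 2 - |(a + b) / 2| ^ r := rfl
      rw [h6] at h5
      linarith
    · push Not at h1
      have : 0 ≤ 2 ^ r / ψ z0 * ((|a| ^ r + |b| ^ r) / 2 - |(a + b) / 2| ^ r) :=
        mul_nonneg hCnn (by linarith)
      linarith

/-- The pointwise uniform convexity inequality. -/
lemma pointwise (r : ℝ) (hr : 1 < r) (ε : ℝ) (hε : 0 < ε) :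
    ∃ C : ℝ, 0 ≤ C ∧ ∀ a b : ℝ,
      |a - b| ^ r ≤ ε * (|a| ^ r + |b| ^ r) +
        C * ((|a| ^ r + |b| ^ r) / 2 - |(1 / 2) * (a + b)| ^ r) := by
  obtain ⟨C, hC0, hC⟩ := pointwise_sphere r hr ε hε
  have hr0 : 0 < r := by linarith
  refine ⟨C, hC0, fun a b => ?_⟩
  set s : ℝ := |a| ^ r + |b| ^ r with hs
  have h1 : 0 ≤ |a| ^ r := Real.rpow_nonneg (abs_nonneg _) _
  have h2 : 0 ≤ |b| ^ r := Real.rpow_nonneg (abs_nonneg _) _
  rcases (show 0 ≤ s by rw [hs]; linarith).eq_or_lt with h0 | h0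
  · have ha : |a| ^ r = 0 := by linarith
    have hb : |b| ^ r = 0 := by linarith
    have ha' : a = 0 := by
      rw [Real.rpow_eq_zero (abs_nonneg _) hr0.ne'] at ha
      exact abs_eq_zero.1 ha
    have hb' : b = 0 := by
      rw [Real.rpow_eq_zero (abs_nonneg _) hr0.ne'] at hb
      exact abs_eq_zero.1 hb
    rw [← h0, ha', hb']
    simp [Real.zero_rpow hr0.ne']
  · set t : ℝ := s ^ (-(1 / r)) with ht
    have ht0 : 0 < t := Real.rpow_pos_of_pos h0 _
    have htr : t ^ r = s⁻¹ := by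
      rw [ht, ← Real.rpow_mul h0.le, neg_mul, one_div, inv_mul_cancel₀ hr0.ne', Real.rpow_neg_one]
    have hscale : ∀ z : ℝ, |t * z| ^ r = s⁻¹ * |z| ^ r := by
      intro z
      rw [abs_mul, abs_of_pos ht0, Real.mul_rpow ht0.le (abs_nonneg _), htr]
    have h3 := hC (t * a) (t * b) (by
      rw [hscale, hscale, ← mul_add, ← hs, inv_mul_cancel₀ h0.ne'])
    have e1 : t * a - t * b = t * (a - b) := by ring
    have e2 : (t * a + t * b) / 2 = t * ((1 / 2) * (a + b)) := by ring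
    rw [e1, e2, hscale, hscale, hscale, hscale] at h3
    have h4 := mul_le_mul_of_nonneg_left h3 h0.le
    have e3 : s * (s⁻¹ * |a - b| ^ r) = |a - b| ^ r := by
      rw [← mul_assoc, mul_inv_cancel₀ h0.ne', one_mul]
    have e4 : s * (ε + C * ((s⁻¹ * |a| ^ r + s⁻¹ * |b| ^ r) / 2 -
        s⁻¹ * |(1 / 2) * (a + b)| ^ r)) = ε * s +
        C * (s / 2 - |(1 / 2) * (a + b)| ^ r) := by
      have : s * s⁻¹ = 1 := mul_inv_cancel₀ h0.ne'
      calc s * (ε + C * ((s⁻¹ * |a| ^ r + s⁻¹ * |b| ^ r) / 2 -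
          s⁻¹ * |(1 / 2) * (a + b)| ^ r)) = ε * s + C * ((s * s⁻¹) * (|a| ^ r + |b| ^ r) / 2 -
          (s * s⁻¹) * |(1 / 2) * (a + b)| ^ r) := by ring
        _ = _ := by rw [this, ← hs]; ring
    rw [e3, e4] at h4
    exact h4

/-- The norm inequality `(UC)`. -/
def UC (E : Type*) [NormedAddCommGroup E] [NormedSpace ℝ E] (r : ℝ) : Prop :=
  ∀ ε : ℝ, 0 < ε → ∃ C : ℝ, 0 ≤ C ∧ ∀ x y : E,
    ‖x - y‖ ^ r ≤ ε * (‖x‖ ^ r + ‖y‖ ^ r) +
      C * ((‖x‖ ^ r + ‖y‖ ^ r) / 2 - ‖(1 / 2 : ℝ) • (x + y)‖ ^ r)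

/-- `ℓ_p` satisfies `(UC)`. -/
lemma uc_lp {ι : Type*} (p : ℝ≥0∞) [Fact (1 ≤ p)] (hp : 1 < p.toReal) :
    UC (lp (fun _ : ι => ℝ) p) p.toReal := by
  intro ε hε
  obtain ⟨C, hC0, hC⟩ := pointwise p.toReal hp ε hε
  refine ⟨C, hC0, fun x y => ?_⟩
  have hp0 : 0 < p.toReal := by linarith
  have h1 := lp.hasSum_norm hp0 (x - y)
  have h2 := lp.hasSum_norm hp0 x
  have h3 := lp.hasSum_norm hp0 y
  have h4 := lp.hasSum_norm hp0 ((1 / 2 : ℝ) • (x + y))
  have h5 := ((h2.add h3).mul_left ε).add ((((h2.add h3).div_const 2).sub h4).mul_left C)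
  refine hasSum_le (fun i => ?_) h1 h5
  exact hC (x i) (y i)

/-- `L_p` satisfies `(UC)`. -/
lemma uc_Lp {Ω : Type*} [MeasurableSpace Ω] (μ : MeasureTheory.Measure Ω) (p : ℝ≥0∞)
    [Fact (1 ≤ p)] (hp : 1 < p.toReal) (hp' : p ≠ ∞) :
    UC (MeasureTheory.Lp ℝ p μ) p.toReal := by
  have hp0 : 0 < p.toReal := by linarith
  have hpne : p ≠ 0 := by rintro rfl; simp at hp0
  have hnorm : ∀ f : MeasureTheory.Lp ℝ p μ, ‖f‖ ^ p.toReal = ∫ ω, |f ω| ^ p.toReal ∂μ := by
    intro f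
    have hf := MeasureTheory.Lp.memLp f
    rw [MeasureTheory.Lp.norm_def, hf.eLpNorm_eq_integral_rpow_norm hpne hp',
      ENNReal.toReal_ofReal (by positivity), ← Real.rpow_mul, inv_mul_cancel₀ hp0.ne',
      Real.rpow_one]
    · rfl
    · exact MeasureTheory.integral_nonneg fun ω => by positivity
  have hint : ∀ f : MeasureTheory.Lp ℝ p μ,
      MeasureTheory.Integrable (fun ω => |f ω| ^ p.toReal) μ := by
    intro f
    exact (MeasureTheory.Lp.memLp f).integrable_norm_rpow hpne hp'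
  intro ε hε
  obtain ⟨C, hC0, hC⟩ := pointwise p.toReal hp ε hε
  refine ⟨C, hC0, fun x y => ?_⟩
  rw [hnorm, hnorm, hnorm, hnorm, ← MeasureTheory.integral_add (hint x) (hint y),
    ← MeasureTheory.integral_const_mul]
  set g : MeasureTheory.Lp ℝ p μ := (1 / 2 : ℝ) • (x + y) with hg
  have hI : MeasureTheory.Integrable (fun ω => |x ω| ^ p.toReal + |y ω| ^ p.toReal) μ :=
    (hint x).add (hint y)
  have hI1 : MeasureTheory.Integrable (fun ω => (|x ω| ^ p.toReal + |y ω| ^ p.toReal) / 2) μ :=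
    hI.div_const 2
  have hI2 : MeasureTheory.Integrable (fun ω => (|x ω| ^ p.toReal + |y ω| ^ p.toReal) / 2 -
      |g ω| ^ p.toReal) μ := hI1.sub (hint g)
  have hI3 : MeasureTheory.Integrable (fun ω => C * ((|x ω| ^ p.toReal + |y ω| ^ p.toReal) / 2 -
      |g ω| ^ p.toReal)) μ := hI2.const_mul C
  have hI4 : MeasureTheory.Integrable (fun ω => ε * (|x ω| ^ p.toReal + |y ω| ^ p.toReal)) μ :=
    hI.const_mul ε
  have e1 : (∫ ω, |x ω| ^ p.toReal + |y ω| ^ p.toReal ∂μ) / 2 -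
      ∫ ω, |g ω| ^ p.toReal ∂μ =
      ∫ ω, ((|x ω| ^ p.toReal + |y ω| ^ p.toReal) / 2 - |g ω| ^ p.toReal) ∂μ := by
    rw [MeasureTheory.integral_sub hI1 (hint g), MeasureTheory.integral_div]
  rw [e1, ← MeasureTheory.integral_const_mul, ← MeasureTheory.integral_add hI4 hI3]
  refine MeasureTheory.integral_mono_ae (hint _) (hI4.add hI3) ?_
  filter_upwards [MeasureTheory.Lp.coeFn_sub x y, MeasureTheory.Lp.coeFn_add x y,
    MeasureTheory.Lp.coeFn_smul (1 / 2 : ℝ) (x + y)] with ω h1 h2 h3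
  simp only [hg, h1, h3, Pi.smul_apply, h2, Pi.sub_apply, Pi.add_apply, smul_eq_mul]
  exact hC (x ω) (y ω)

/-- In a complete space with `(UC)`, decreasing sequences of nonempty bounded closed convex sets
have nonempty intersection. -/
lemma nested {E : Type*} [NormedAddCommGroup E] [NormedSpace ℝ E] [CompleteSpace E] {r : ℝ}
    (hr : 0 < r) (huc : UC E r) (S : ℕ → Set E) (hS : ∀ n, IsClosed (S n))
    (hconv : ∀ n, Convex ℝ (S n)) (hne : ∀ n, (S n).Nonempty) (hanti : Antitone S)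
    (M : ℝ) (hM : ∀ x ∈ S 0, ‖x‖ ≤ M) : (⋂ n, S n).Nonempty := by
  have hM' : ∀ n, ∀ x ∈ S n, ‖x‖ ≤ M := fun n x hx => hM x (hanti (Nat.zero_le n) hx)
  have hM0 : 0 ≤ M := by
    obtain ⟨x, hx⟩ := hne 0
    exact (norm_nonneg x).trans (hM x hx)
  set d : ℕ → ℝ := fun n => sInf ((fun x : E => ‖x‖ ^ r) '' S n) with hd
  have hbdd : ∀ n, BddBelow ((fun x : E => ‖x‖ ^ r) '' S n) := by
    intro n
    refine ⟨0, ?_⟩
    rintro _ ⟨x, -, rfl⟩
    positivity
  have hdle : ∀ n, ∀ x ∈ S n, d n ≤ ‖x‖ ^ r := fun n x hx => csInf_le (hbdd n) ⟨x, hx, rfl⟩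
  have hdmono : Monotone d := by
    intro m n hmn
    exact csInf_le_csInf (hbdd m) ((hne n).image _) (image_mono (hanti hmn))
  have hdM : ∀ n, d n ≤ M ^ r := by
    intro n
    obtain ⟨x, hx⟩ := hne n
    exact (hdle n x hx).trans (Real.rpow_le_rpow (norm_nonneg _) (hM' n x hx) hr.le)
  have hdlim : ∃ L, Tendsto d atTop (𝓝 L) :=
    ⟨_, tendsto_atTop_ciSup hdmono ⟨M ^ r, by rintro _ ⟨n, rfl⟩; exact hdM n⟩⟩
  obtain ⟨L, hL⟩ := hdlim
  have hex : ∀ n : ℕ, ∃ x ∈ S n, ‖x‖ ^ r < d n + 1 / ((n : ℝ) + 1) := by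
    intro n
    obtain ⟨_, ⟨x, hx, rfl⟩, h⟩ := exists_lt_of_csInf_lt ((hne n).image _)
      (show sInf ((fun x : E => ‖x‖ ^ r) '' S n) < d n + 1 / ((n : ℝ) + 1) by
        have : (0 : ℝ) < 1 / ((n : ℝ) + 1) := by positivity
        simp only [hd]; linarith)
    exact ⟨x, hx, h⟩
  choose y hy hyd using hex
  have hcauchy : CauchySeq y := by
    rw [Metric.cauchySeq_iff']
    intro η hη
    -- choose `ε`
    have hηr : 0 < η ^ r := Real.rpow_pos_of_pos hη r
    have hMr : 0 ≤ M ^ r := Real.rpow_nonneg hM0 r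
    set ε : ℝ := η ^ r / (4 * (M ^ r + 1)) with hε
    have hε0 : 0 < ε := by positivity
    have hεM : ε * (2 * M ^ r) ≤ η ^ r / 2 := by
      rw [hε, div_mul_eq_mul_div, div_le_iff₀ (by positivity)]
      nlinarith
    obtain ⟨C, hC0, hC⟩ := huc ε hε0
    -- the tail
    have hδ : 0 < η ^ r / (4 * (C + 1)) := by positivity
    obtain ⟨N, hN⟩ : ∃ N, ∀ n ≥ N, |d n - L| < η ^ r / (4 * (C + 1)) ∧
        1 / ((n : ℝ) + 1) < η ^ r / (4 * (C + 1)) := by
      have h1 := (Metric.tendsto_atTop.1 hL) _ hδ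
      have h2 := (Metric.tendsto_atTop.1 (tendsto_one_div_add_atTop_nhds_zero_nat (𝕜 := ℝ))) _ hδ
      obtain ⟨N1, hN1⟩ := h1
      obtain ⟨N2, hN2⟩ := h2
      refine ⟨max N1 N2, fun n hn => ⟨?_, ?_⟩⟩
      · have := hN1 n (le_trans (le_max_left _ _) hn)
        rwa [Real.dist_eq] at this
      · have := hN2 n (le_trans (le_max_right _ _) hn)
        rw [Real.dist_eq, sub_zero, abs_of_nonneg (by positivity)] at this
        exact this
    refine ⟨N, fun n hn => ?_⟩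
    have h1 := hC (y n) (y N)
    have hyn := hN n hn
    have hyN := hN N le_rfl
    have hmid : d N ≤ ‖(1 / 2 : ℝ) • (y n + y N)‖ ^ r := by
      apply hdle
      rw [smul_add]
      exact hconv N (hanti hn (hy n)) (hy N) (by norm_num) (by norm_num) (by norm_num)
    have h2 : (‖y n‖ ^ r + ‖y N‖ ^ r) / 2 - ‖(1 / 2 : ℝ) • (y n + y N)‖ ^ r <
        2 * (η ^ r / (4 * (C + 1))) := by
      have h3 := hyd n
      have h4 := hyd N
      have h5 := (abs_lt.1 hyn.1)
      have h6 := (abs_lt.1 hyN.1)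
      linarith [h5.1, h5.2, h6.1, h6.2, hyn.2, hyN.2]
    have h3 : C * ((‖y n‖ ^ r + ‖y N‖ ^ r) / 2 - ‖(1 / 2 : ℝ) • (y n + y N)‖ ^ r) <
        η ^ r / 2 := by
      calc C * ((‖y n‖ ^ r + ‖y N‖ ^ r) / 2 - ‖(1 / 2 : ℝ) • (y n + y N)‖ ^ r)
          ≤ C * (2 * (η ^ r / (4 * (C + 1)))) := by gcongr
        _ = η ^ r / 2 * (C / (C + 1)) := by field_simp; ring
        _ < η ^ r / 2 * 1 := by
            gcongr
            rw [div_lt_one (by positivity)]
            linarith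
        _ = η ^ r / 2 := mul_one _
    have h4 : ε * (‖y n‖ ^ r + ‖y N‖ ^ r) ≤ η ^ r / 2 := by
      refine le_trans ?_ hεM
      have h5 := Real.rpow_le_rpow (norm_nonneg _) (hM' n _ (hy n)) hr.le
      have h6 := Real.rpow_le_rpow (norm_nonneg _) (hM' N _ (hy N)) hr.le
      gcongr
      linarith
    have h5 : ‖y n - y N‖ ^ r < η ^ r := by linarith
    rw [dist_eq_norm]
    exact (Real.rpow_lt_rpow_iff (norm_nonneg _) hη.le hr).1 h5
  obtain ⟨z, hz⟩ := cauchySeq_tendsto_of_complete hcauchy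
  refine ⟨z, mem_iInter.2 fun n => ?_⟩
  refine (hS n).mem_of_tendsto hz ?_
  filter_upwards [eventually_ge_atTop n] with k hk
  exact hanti hk (hy k)

end Pool.Agent.R270.UnifConv
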