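import Mathlib

/-!
# Basic weak neighbourhoods
-/

namespace Pool.Agent.R270.WeakNhd

open Set Filter Topology

variable {𝕜 X : Type*} [RCLike 𝕜] [NormedAddCommGroup X] [NormedSpace 𝕜 X]

/-- Every weakly open set containing `x` contains a basic weak neighbourhood of `x`. -/
lemma exists_basic (O : Set (WeakSpace 𝕜 X)) (hO : IsOpen O) (x : X)
    (hx : toWeakSpace 𝕜 X x ∈ O) :
    ∃ (s : Finset (StrongDual 𝕜 X)) (ε : ℝ), 0 < ε ∧
      ∀ z : X, (∀ f ∈ s, ‖f (z - x)‖ < ε) → toWeakSpace 𝕜 X z ∈ O := by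
  have h1 : {w : WeakSpace 𝕜 X | w + toWeakSpace 𝕜 X x ∈ O} ∈ 𝓝 (0 : WeakSpace 𝕜 X) := by
    have hc : Continuous fun w : WeakSpace 𝕜 X => w + toWeakSpace 𝕜 X x :=
      continuous_id.add continuous_const
    exact (hO.preimage hc).mem_nhds (by simpa using hx)
  obtain ⟨U, hU, hUsub⟩ :=
    ((topDualPairing 𝕜 X).flip.hasBasis_weakBilin.mem_iff).1 h1
  rw [SeminormFamily.basisSets_iff] at hU
  obtain ⟨s, r, hr, rfl⟩ := hU
  refine ⟨s, r, hr, fun z hz => ?_⟩
  have h2 : (z - x : X) ∈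
      (s.sup (topDualPairing 𝕜 X).flip.toSeminormFamily).ball 0 r := by
    rw [Seminorm.mem_ball_zero]
    refine Seminorm.finset_sup_apply_lt hr ?_
    intro f hf
    exact hz f hf
  have h3 := hUsub h2
  have h4 : toWeakSpace 𝕜 X (z - x) + toWeakSpace 𝕜 X x ∈ O := h3
  rw [← map_add, sub_add_cancel] at h4
  exact h4

/-- The functionals of `X` are weakly continuous. -/
lemma continuous_eval (f : StrongDual 𝕜 X) :
    Continuous fun w : WeakSpace 𝕜 X => f ((toWeakSpace 𝕜 X).symm w) :=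
  WeakBilin.eval_continuous (topDualPairing 𝕜 X).flip f

end Pool.Agent.R270.WeakNhd
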